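import Pool.Agent.NDM.C18
import Pool.Agent.NDM.C24
import Pool.Agent.NDM.C27
import Pool.Agent.NDM.C33

/-!
# A non-destabilizable Legendrian knot with an exact Lagrangian cap
-/

namespace Pool.Agent.Results.MP_093788_gt.NonDestabCap

open LC

/-- Being an exact cap depends only on the set of points of the knot. -/
theorem cap_carrier {Λ Λ' : LegKnot} (h : Λ'.carrier = Λ.carrier) {L : Set R4}
    (hL : IsExactCap Λ' L) : IsExactCap Λ L :=
  ⟨hL.closed, hL.connected, hL.surface, hL.lagrangian, by rw [← h]; exact hL.ends⟩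

/-- There is a Legendrian knot in the standard contact space which is not destabilizable and has an
exact Lagrangian cap. -/
theorem result : ∃ Λ : LegKnot, ¬ Destabilizable Λ ∧ ∃ L, IsExactCap Λ L := by
  obtain ⟨sh, Λ, hΛ, N₀, -, hJ⟩ := LHE.t_TJ1
  obtain ⟨Λ', hΛ', L, hL⟩ := LCA.CapJ.capped sh
  refine ⟨Λ, LHJ.not_dest LHE.t_TS Λ ⟨N₀, fun N hN P hP => ?_⟩, L,
    cap_carrier (hΛ'.trans hΛ.symm) hL⟩
  obtain ⟨X, w, hX, hw, hM⟩ := hJ N hN P hP
  exact ⟨X, w, hX, hw, LHJ.cst LHJ.M0, hM _ LHJ.rpJ, LHJ.vJ.1, LHJ.vJ.2⟩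

end Pool.Agent.Results.MP_093788_gt.NonDestabCap
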